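import Pool.Agent.Q294.ZeroTensor

/-!
# MP_2a72d7: random simple tensors of linear degree are not well-conditioned in general

If the coordinates of the factors vanish with probability `q > 0`, the first factor of a column is
the zero vector with probability `q^n`. For `d(n)` of order `n` (and already for `d(n)` of order
`n / log n`, for suitable laws) there are `(1 - ε) n^{d(n)} ≫ q^{-n}` columns, so some column is the
zero tensor with probability tending to one.
-/

open MeasureTheory Filter Topology
open scoped ENNReal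

namespace Pool.Agent.Results.MP_2a72d7_pr.ZeroColumns

open Q294.ZeroTensor

/-- (1) Q1 is false. (2) For every law of the coordinates with an atom at zero and every
`K > 0`, if `d(n) ≥ K n` eventually, then `σ_min = 0` with probability tending to one. (3) For every
`δ > 0` there is an admissible law of the coordinates such that the same happens as soon as
`d(n) ≥ δ n / log n` eventually. -/
theorem result :
    ¬ Q1 ∧
    (∀ κ : Measure ℝ, IsProbabilityMeasure κ → 0 < κ {0} → ∀ K ε : ℝ, 0 < K → ε < 1 →
      ∀ d : ℕ → ℕ, (∀ᶠ n : ℕ in atTop, K * n ≤ d n) →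
      Tendsto (fun n : ℕ => law n (d n) (cols ε n (d n)) (fun _ _ => κ) {ω | sigmaMin ω = 0}) atTop
        (𝓝 1)) ∧
    (∀ δ : ℝ, 0 < δ → ∃ κ : Measure ℝ, ∃ L : ℝ, Admissible L κ ∧ ∀ ε : ℝ, ε < 1 → ∀ d : ℕ → ℕ,
      (∀ᶠ n : ℕ in atTop, δ * n ≤ d n * Real.log n) →
      Tendsto (fun n : ℕ => law n (d n) (cols ε n (d n)) (fun _ _ => κ) {ω | sigmaMin ω = 0}) atTop
        (𝓝 1)) :=
  ⟨not_Q1, fun _ _ hκ _ _ hK hε d hd => linear hκ hK hε d hd, fun _ hδ => short hδ⟩

end Pool.Agent.Results.MP_2a72d7_pr.ZeroColumns
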